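import Pool.Agent.X298.RP.Main

/-!
# Arthur type with short strings at all places from one place
-/

set_option autoImplicit false

open Finset

namespace Pool.Agent.X298.AR

open Pool.Agent.X298.RP

variable {V : Type} {N : ℕ}

/-- `q_v` -/
noncomputable def Q (P : Parameters V N) (v : V) : ℝ := P.q ^ P.deg v

open Classical in
/-- the number of parameters at `v` of absolute value `q_v ^ (1/2)` -/
noncomputable def pairs (P : Parameters V N) (v : V) : ℕ :=
  (univ.filter fun j => ‖P.α v j‖ = (Q P v) ^ (1 / 2 : ℝ)).card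

/-- The parameters at `v` are of Arthur type with strings of length at most `2`: they are permuted by a bijection which fixes
those of absolute value `1`, and exchanges those of absolute values `q_v ^ (1/2)`, `q_v ^ (-1/2)` by `z ↦ z / q_v`, `z ↦ z q_v`;
there are no others. -/
def ShortStrings (P : Parameters V N) (v : V) : Prop :=
  ∃ e : Equiv.Perm (Fin N), ∀ j,
    (‖P.α v j‖ = 1 ∧ P.α v (e j) = P.α v j) ∨
    (‖P.α v j‖ = (Q P v) ^ (1 / 2 : ℝ) ∧ P.α v (e j) = P.α v j / Q P v) ∨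
    (‖P.α v j‖ = (Q P v) ^ (-(1 / 2) : ℝ) ∧ P.α v (e j) = P.α v j * Q P v)

theorem Q_pos (P : Parameters V N) (v : V) : 1 < Q P v :=
  one_lt_pow₀ P.one_lt_q (Nat.one_le_iff_ne_zero.1 (P.deg_pos v))

theorem Q_rpow (P : Parameters V N) (v : V) (t : ℝ) : P.q ^ ((P.deg v : ℝ) * t) = (Q P v) ^ t := by
  unfold Q
  rw [Real.rpow_mul (by linarith [P.one_lt_q]), Real.rpow_natCast]

/-- `1 / conj z` for a number of given absolute value -/
theorem inv_conj (z : ℂ) (t : ℝ) (ht : 0 < t) (h : ‖z‖ ^ 2 = t) : ((starRingEnd ℂ) z)⁻¹ = z / t := by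
  have hz : z ≠ 0 := by
    rintro rfl
    rw [norm_zero] at h
    norm_num at h
    linarith
  have h2 : (starRingEnd ℂ) z ≠ 0 := by rwa [Ne, map_eq_zero]
  have h3 : (t : ℂ) ≠ 0 := by exact_mod_cast ht.ne'
  rw [eq_div_iff h3, inv_mul_eq_iff_eq_mul₀ h2, mul_comm, Complex.mul_conj, Complex.normSq_eq_norm_sq, h]

/-- exponents -/
theorem exponents (P : Parameters V N) (hw : ∀ j, ∃ m : ℤ, P.w j = m / 2) {v : V}
    (hv : ∀ j, ‖P.α v j‖ < Q P v) : ∀ j, P.w j = 0 ∨ P.w j = 1 / 2 ∨ P.w j = -(1 / 2) := by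
  have hQ := Q_pos P v
  obtain ⟨e, he⟩ := P.purity v
  obtain ⟨e', he'⟩ := P.unitarity v
  have h1 : ∀ j, P.w j < 1 := by
    intro j
    have h := hv (e j)
    rw [he, Q_rpow] at h
    by_contra h0
    push Not at h0
    have := Real.rpow_le_rpow_of_exponent_le hQ.le h0
    rw [Real.rpow_one] at this
    linarith
  have h2 : ∀ j, -1 < P.w j := by
    intro j
    have h := hv (e' (e j))
    rw [he', norm_inv_conj, he, Q_rpow, ← Real.rpow_neg (by linarith)] at h
    by_contra h0
    push Not at h0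
    have := Real.rpow_le_rpow_of_exponent_le hQ.le (by linarith : (1 : ℝ) ≤ -P.w j)
    rw [Real.rpow_one] at this
    linarith
  intro j
  obtain ⟨m, hm⟩ := hw j
  have h3 := h1 j
  have h4 := h2 j
  rw [hm] at h3 h4
  have h5 : (m : ℝ) < 2 := by linarith
  have h6 : (-2 : ℝ) < m := by linarith
  have h7 : m < 2 := by exact_mod_cast h5
  have h8 : -2 < m := by exact_mod_cast h6
  have h9 : m = -1 ∨ m = 0 ∨ m = 1 := by omega
  rcases h9 with rfl | rfl | rfl
  · right; right; rw [hm]; norm_num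
  · left; rw [hm]; norm_num
  · right; left; rw [hm]; norm_num

open Classical in
theorem pairs_eq (P : Parameters V N) (v : V) : pairs P v = (univ.filter fun j => P.w j = 1 / 2).card := by
  obtain ⟨e, he⟩ := P.purity v
  have hQ := Q_pos P v
  have hinj : ∀ t : ℝ, (Q P v) ^ t = (Q P v) ^ (1 / 2 : ℝ) ↔ t = 1 / 2 := by
    intro t
    constructor
    · intro h
      have h1 := congrArg Real.log h
      rw [Real.log_rpow (by linarith), Real.log_rpow (by linarith)] at h1
      exact mul_right_cancel₀ (Real.log_pos hQ).ne' h1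
    · rintro rfl
      rfl
  unfold pairs
  refine (Finset.card_bij (fun j _ => e j) ?_ (fun a _ b _ h => e.injective h) ?_).symm
  · intro j hj
    rw [mem_filter] at hj ⊢
    refine ⟨mem_univ _, ?_⟩
    rw [he, Q_rpow, hinj]
    exact hj.2
  · intro j hj
    rw [mem_filter] at hj
    refine ⟨e.symm j, ?_, e.apply_symm_apply j⟩
    rw [mem_filter]
    refine ⟨mem_univ _, ?_⟩
    have h1 := he (e.symm j)
    rw [e.apply_symm_apply, Q_rpow, hj.2] at h1
    exact (hinj _).1 h1.symm

theorem main (P : Parameters V N) (hw : ∀ j, ∃ m : ℤ, P.w j = m / 2) {v : V} (hv : ∀ j, ‖P.α v j‖ < Q P v) :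
    (∀ v', pairs P v' = pairs P v) ∧ ∀ v', ShortStrings P v' := by
  refine ⟨fun v' => by rw [pairs_eq, pairs_eq], fun v' => ?_⟩
  have hQ := Q_pos P v'
  have hQ0 : (0 : ℝ) < Q P v' := by linarith
  have hexp := exponents P hw hv
  obtain ⟨e, he⟩ := P.purity v'
  obtain ⟨e', he'⟩ := P.unitarity v'
  refine ⟨e', fun j => ?_⟩
  have h1 := he (e.symm j)
  rw [e.apply_symm_apply, Q_rpow] at h1
  rw [he']
  rcases hexp (e.symm j) with h | h | h
  · rw [h, Real.rpow_zero] at h1
    refine Or.inl ⟨h1, ?_⟩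
    rw [inv_conj _ 1 one_pos (by rw [h1]; norm_num)]
    simp
  · rw [h] at h1
    refine Or.inr (Or.inl ⟨h1, ?_⟩)
    refine inv_conj _ _ hQ0 ?_
    rw [h1, ← Real.rpow_natCast, ← Real.rpow_mul hQ0.le]
    norm_num
  · rw [h] at h1
    refine Or.inr (Or.inr ⟨h1, ?_⟩)
    rw [inv_conj _ (Q P v')⁻¹ (inv_pos.2 hQ0) ?_]
    · push_cast
      rw [div_inv_eq_mul]
    · rw [h1, ← Real.rpow_natCast, ← Real.rpow_mul hQ0.le, ← Real.rpow_neg_one]
      norm_num

end Pool.Agent.X298.AR
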